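import Pool.Agent.Lib.helper21.LogBump

/-! A bounded discontinuous `W^{1,2}` solution of `-Δu + b·∇u = 0` in a planar disc with `b ∈ L²`. -/

set_option autoImplicit false

namespace Pool.Agent.Results.MP_89b2fa_an.Counter

open MeasureTheory Set Real Filter Topology Pool.Agent.Lib.Helper21.LogBump
open scoped ContDiff

noncomputable section

/-- the open Euclidean disc of radius `R` -/
def disc (R : ℝ) : Set (ℝ × ℝ) := {z | z.1 ^ 2 + z.2 ^ 2 < R ^ 2}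

/-- test functions: smooth with compact support in the disc -/
def Test (R : ℝ) (h : ℝ × ℝ → ℝ) : Prop := ContDiff ℝ ∞ h ∧ HasCompactSupport h ∧ tsupport h ⊆ disc R

/-- the first-variable derivative -/
def d1 (h : ℝ × ℝ → ℝ) (z : ℝ × ℝ) : ℝ := fderiv ℝ h z (1, 0)

/-- the second-variable derivative -/
def d2 (h : ℝ × ℝ → ℝ) (z : ℝ × ℝ) : ℝ := fderiv ℝ h z (0, 1)

lemma disc_open (R : ℝ) : IsOpen (disc R) := isOpen_lt (by fun_prop) continuous_const

abbrev μ : Measure (ℝ × ℝ) := volume.restrict (disc (1 / 2))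

lemma disc_bd {z : ℝ × ℝ} (hz : z ∈ disc (1 / 2)) : |z.1| < 1 / 2 ∧ |z.2| < 1 / 2 := by
  have : z.1 ^ 2 + z.2 ^ 2 < (1 / 2) ^ 2 := hz
  exact ⟨abs_lt_of_sq_lt_sq (by nlinarith) (by norm_num), abs_lt_of_sq_lt_sq (by nlinarith) (by norm_num)⟩

instance : IsFiniteMeasure μ := isFiniteMeasure_restrict.2
  ((measure_mono fun z hz => show z ∈ Metric.closedBall (0 : ℝ × ℝ) 1 by
    have := disc_bd hz
    simp only [mem_closedBall_zero_iff, Prod.norm_def, norm_eq_abs, max_le_iff]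
    constructor <;> linarith [this.1, this.2]).trans_lt (isCompact_closedBall _ _).measure_lt_top).ne

lemma ae_of {P : ℝ × ℝ → Prop} (h : ∀ z ∈ disc (1 / 2), P z) : ∀ᵐ z ∂μ, P z :=
  (ae_restrict_iff' (disc_open _).measurableSet).2 (Eventually.of_forall h)

def p (k : ℕ) : ℝ := (1 / 2) ^ k / 4
def d (k : ℕ) : ℝ := (1 / 2) ^ k / 16

lemma p_pos (k : ℕ) : 0 < p k := by unfold p; positivity
lemma p_le (k : ℕ) : p k ≤ 1 / 4 := by
  have : (1 / 2 : ℝ) ^ k ≤ 1 := pow_le_one₀ (by norm_num) (by norm_num)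
  unfold p; linarith

lemma rho_le {z : ℝ × ℝ} (hz : z ∈ disc (1 / 2)) (k : ℕ) : (z.1 - p k) ^ 2 + z.2 ^ 2 ≤ 1 := by
  have := disc_bd hz
  have h1 := abs_lt.1 this.1
  have h2 := abs_lt.1 this.2
  nlinarith [p_pos k, p_le k, h1.1, h1.2, h2.1, h2.2]

lemma sep (x : ℝ) : ∃ j, ∀ k, k ≠ j → d k ≤ |x - p k| := by
  by_cases h : ∃ j, |x - p j| < d j
  · obtain ⟨j, hj⟩ := h
    refine ⟨j, fun k hk => not_lt.1 fun h => ?_⟩
    have key : ∀ j k, j < k → |x - p j| < d j → |x - p k| < d k → False := by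
      intro j k hl a b
      have : (1 / 2 : ℝ) ^ k ≤ (1 / 2) ^ (j + 1) := pow_le_pow_of_le_one (by norm_num) (by norm_num) hl
      have hp : (0 : ℝ) < (1 / 2) ^ j := by positivity
      rw [abs_lt] at a b
      rw [pow_succ] at this
      unfold p d at *
      linarith [a.1, b.2]
    rcases lt_or_gt_of_ne hk with e | e
    · exact key _ _ e h hj
    · exact key _ _ e hj h
  · push Not at h
    exact ⟨0, fun k _ => h k⟩

lemma Θ_int {L : ℝ} (hL : 1 ≤ L) (k : ℕ) : Integrable (fun z : ℝ × ℝ => Θ L (z.1 - p k) z.2) μ := by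
  have h : Integrable fun z : ℝ × ℝ => 3 * Φ (z.1 - p k) z.2 := by
    simpa using (Φ_int.comp_sub_right (p k, 0)).const_mul 3
  refine h.integrableOn.mono' (Measurable.aestronglyMeasurable (by unfold Θ T; fun_prop)) (ae_of fun z hz => ?_)
  rw [norm_eq_abs, abs_of_nonneg (Θ_nonneg _ _ _)]
  exact Θ_le hL (rho_le hz k)

lemma exists_L (k : ℕ) : ∃ L : ℝ, 4 ≤ L ∧ 2 ≤ p k * (d k ^ 2 * L) ∧
    ∫ z, Θ L (z.1 - p k) z.2 ∂μ ≤ (1 / 2) ^ k := by
  have h : Integrable fun z : ℝ × ℝ => 3 * Φ (z.1 - p k) z.2 := by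
    simpa using (Φ_int.comp_sub_right (p k, 0)).const_mul 3
  have t : Tendsto (fun L : ℝ => ∫ z, Θ L (z.1 - p k) z.2 ∂μ) atTop (𝓝 (∫ _, 0 ∂μ)) := by
    refine tendsto_integral_filter_of_dominated_convergence _ (Eventually.of_forall fun L =>
      Measurable.aestronglyMeasurable (by unfold Θ T; fun_prop)) ((eventually_ge_atTop 1).mono fun L hL =>
        ae_of fun z hz => ?_) h.integrableOn (Eventually.of_forall fun z => ?_)
    · rw [norm_eq_abs, abs_of_nonneg (Θ_nonneg _ _ _)]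
      exact Θ_le hL (rho_le hz k)
    · refine squeeze_zero (fun L => Θ_nonneg _ _ _) (fun L => Θ_le' _ _ _) ?_
      simpa [mul_comm] using ((tendsto_pow_atTop two_ne_zero).inv_tendsto_atTop (𝕜 := ℝ)).const_mul
        ((z.1 - p k) ^ 2 + z.2 ^ 2)⁻¹
  rw [integral_zero] at t
  have hp := p_pos k
  have hd : 0 < d k := by unfold d; positivity
  obtain ⟨L, ⟨h1, h2⟩, h3⟩ := (((eventually_ge_atTop 4).and (eventually_ge_atTop (2 / (p k * d k ^ 2)))).and
    (t.eventually (ge_mem_nhds (show (0 : ℝ) < (1 / 2) ^ k by positivity)))).exists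
  rw [div_le_iff₀ (by positivity)] at h2
  exact ⟨L, h1, by linarith, h3⟩

def L (k : ℕ) : ℝ := (exists_L k).choose
lemma L_ge (k : ℕ) : 4 ≤ L k := (exists_L k).choose_spec.1
lemma L_one (k : ℕ) : 1 ≤ L k := by linarith [L_ge k]

def w (k : ℕ) (z : ℝ × ℝ) : ℝ := W (L k) (z.1 - p k) z.2
def w1 (k : ℕ) (z : ℝ × ℝ) : ℝ := W1 (L k) (z.1 - p k) z.2
def w2 (k : ℕ) (z : ℝ × ℝ) : ℝ := W1 (L k) z.2 (z.1 - p k)
def lp (k : ℕ) (z : ℝ × ℝ) : ℝ := Lap (L k) (z.1 - p k) z.2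
def θ (k : ℕ) (z : ℝ × ℝ) : ℝ := Θ (L k) (z.1 - p k) z.2

lemma w_meas (k : ℕ) : Measurable (w k) := by unfold w W T; fun_prop
lemma w1_meas (k : ℕ) : Measurable (w1 k) := by unfold w1 W1 T; fun_prop
lemma w2_meas (k : ℕ) : Measurable (w2 k) := by unfold w2 W1 T; fun_prop
lemma lp_meas (k : ℕ) : Measurable (lp k) := by unfold lp Lap T; fun_prop
lemma θ_meas (k : ℕ) : Measurable (θ k) := by unfold θ Θ T; fun_prop

lemma far' {z : ℝ × ℝ} (hz : z ∈ disc (1 / 2)) {k : ℕ} (h : d k ≤ |z.1 - p k|) :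
    |w k z| ≤ p k ∧ |w1 k z| ≤ p k ∧ |w2 k z| ≤ p k ∧ |θ k z| ≤ p k ∧ lp k z = 0 := by
  have hd : 0 < d k := by unfold d; positivity
  have e1 : d k ^ 2 ≤ (z.1 - p k) ^ 2 + z.2 ^ 2 := by nlinarith [sq_abs (z.1 - p k), sq_nonneg z.2]
  have e2 : 2 ≤ p k * (((z.1 - p k) ^ 2 + z.2 ^ 2) * L k) := (exists_L k).choose_spec.2.1.trans
    (mul_le_mul_of_nonneg_left (mul_le_mul_of_nonneg_right e1 (zero_le_one.trans (L_one k))) (p_pos k).le)
  have a := far (L_one k) (rho_le hz k) (by linarith [p_le k]) e2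
  have b := far (δ := p k) (L_one k) (by rw [add_comm]; exact rho_le hz k) (by linarith [p_le k])
    (by rw [add_comm]; exact e2)
  exact ⟨a.1, a.2.1, b.2.1, by rw [θ, abs_of_nonneg (Θ_nonneg _ _ _)]; exact a.2.2.1, a.2.2.2⟩

lemma p_sum : HasSum p (1 / 2) := by
  have := hasSum_geometric_two.div_const 4
  rwa [show (2 : ℝ) / 4 = 1 / 2 by norm_num] at this

lemma near {a : ℕ → ℝ} {j : ℕ} (h : ∀ k, k ≠ j → |a k| ≤ p k) : Summable a ∧ |∑' k, a k - a j| ≤ 1 / 2 := by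
  have h1 : ∀ k, ‖if k = j then 0 else a k‖ ≤ p k := fun k => by
    split_ifs with e
    · simpa using (p_pos k).le
    · exact h k e
  have s : Summable a := by
    refine (p_sum.summable.of_norm_bounded_eventually ?_)
    exact (finite_singleton j).subset fun k hk => by_contra fun e => hk (h k e)
  refine ⟨s, ?_⟩
  rw [s.tsum_eq_add_tsum_ite j, add_sub_cancel_left]
  exact tsum_of_norm_bounded p_sum h1

def Λ (z : ℝ × ℝ) : ℝ := ∑' k, θ k z

lemma θ_le {z : ℝ × ℝ} (hz : z ∈ disc (1 / 2)) (j : ℕ) : θ j z ≤ Λ z := by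
  obtain ⟨i, hi⟩ := sep z.1
  exact (near fun k hk => (far' hz (hi k hk)).2.2.2.1).1.le_tsum j fun k _ => Θ_nonneg _ _ _

lemma Λ_int : Integrable Λ μ := by
  refine ⟨(Measurable.tsum θ_meas).aestronglyMeasurable, ?_⟩
  have e : ∀ᵐ z ∂μ, ‖Λ z‖ₑ = ∑' k, ENNReal.ofReal (θ k z) := ae_of fun z hz => by
    obtain ⟨i, hi⟩ := sep z.1
    rw [enorm_of_nonneg (show 0 ≤ Λ z from tsum_nonneg fun k => Θ_nonneg _ _ _), Λ, ENNReal.ofReal_tsum_of_nonneg
      (fun k => show 0 ≤ θ k z from Θ_nonneg _ _ _) (near fun k hk => (far' hz (hi k hk)).2.2.2.1).1]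
  rw [HasFiniteIntegral, lintegral_congr_ae e, lintegral_tsum fun k => (θ_meas k).ennreal_ofReal.aemeasurable]
  refine lt_of_le_of_lt (ENNReal.tsum_le_tsum fun k => ?_) summable_geometric_two.tsum_ofReal_lt_top
  rw [← ofReal_integral_eq_lintegral_ofReal (f := θ k) (Θ_int (L_one k) k) (Eventually.of_forall fun z => Θ_nonneg _ _ _)]
  exact ENNReal.ofReal_le_ofReal (exists_L k).choose_spec.2.2

/-- continuous with compact support inside the disc -/
def Cc (g : ℝ × ℝ → ℝ) : Prop := Continuous g ∧ HasCompactSupport g ∧ ∀ z, z ∉ disc (1 / 2) → g z = 0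

lemma Cc.int {f g : ℝ × ℝ → ℝ} (hg : Cc g) (hf : Integrable f μ) : Integrable (fun z => f z * g z) μ := by
  obtain ⟨C, hC⟩ := hg.2.1.exists_bound_of_continuous hg.1
  exact hf.mul_bdd hg.1.aestronglyMeasurable (Eventually.of_forall hC)

lemma Cc.int' {f g : ℝ × ℝ → ℝ} (hg : Cc g) (hf : Integrable f μ) : Integrable fun z => f z * g z :=
  (integrableOn_iff_integrable_of_support_subset fun z hz => by_contra fun h => hz (by simp [hg.2.2 z h])).1 (hg.int hf)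

lemma Cc.eq {g : ℝ × ℝ → ℝ} (hg : Cc g) (f : ℝ × ℝ → ℝ) : ∫ z, f z * g z ∂μ = ∫ z, f z * g z :=
  setIntegral_eq_integral_of_forall_compl_eq_zero fun z h => by simp [hg.2.2 z h]

lemma bd_int {f : ℝ × ℝ → ℝ} (hf : Measurable f) (A B : ℝ) (h : ∀ z ∈ disc (1 / 2), |f z| ≤ A + B * Λ z) :
    Integrable f μ :=
  ((integrable_const A).add (Λ_int.const_mul B)).mono' hf.aestronglyMeasurable (ae_of h)

/-- a sequence of functions which are small away from the `k`-th centre and dominated near it -/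
structure Nice (a : ℕ → ℝ × ℝ → ℝ) : Prop where
  meas : ∀ k, Measurable (a k)
  small : ∀ z ∈ disc (1 / 2), ∀ k, d k ≤ |z.1 - p k| → |a k z| ≤ p k
  dom : ∀ z ∈ disc (1 / 2), ∀ k, |a k z| ≤ 3 + 8 * θ k z

lemma Nice.int {a : ℕ → ℝ × ℝ → ℝ} (h : Nice a) (k : ℕ) : Integrable (a k) μ :=
  bd_int (h.meas k) 3 8 fun z hz => (h.dom z hz k).trans (by linarith [θ_le hz k])

lemma Nice.abs {a : ℕ → ℝ × ℝ → ℝ} (h : Nice a) : Nice fun k z => |a k z| :=
  ⟨fun k => (h.meas k).abs, by simpa using h.small, by simpa using h.dom⟩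

lemma Nice.near {a : ℕ → ℝ × ℝ → ℝ} (h : Nice a) {z : ℝ × ℝ} (hz : z ∈ disc (1 / 2)) {j : ℕ}
    (hj : ∀ k, k ≠ j → d k ≤ |z.1 - p k|) : Summable (a · z) ∧ |∑' k, a k z - a j z| ≤ 1 / 2 :=
  Counter.near fun k hk => h.small z hz k (hj k hk)

lemma Nice.sum_int {a : ℕ → ℝ × ℝ → ℝ} (h : Nice a) : Integrable (fun z => ∑' k, a k z) μ :=
  bd_int (Measurable.tsum h.meas) 4 8 fun z hz => by
    obtain ⟨j, hj⟩ := sep z.1
    linarith [(h.near hz hj).2, h.dom z hz j, θ_le hz j, abs_sub_abs_le_abs_sub (∑' k, a k z) (a j z)]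

lemma Nice.hasSum {a : ℕ → ℝ × ℝ → ℝ} (h : Nice a) {g : ℝ × ℝ → ℝ} (hg : Cc g) :
    HasSum (fun k => ∫ z, a k z * g z) (∫ z, (∑' k, a k z) * g z ∂μ) := by
  simp only [← hg.eq]
  have hg' : Cc fun z => |g z| := ⟨hg.1.abs, hg.2.1.abs, fun z hz => by simp [hg.2.2 z hz]⟩
  refine hasSum_integral_of_dominated_convergence (fun k z => |a k z| * |g z|) (fun k => (hg.int (h.int k)).1)
    (fun k => Eventually.of_forall fun z => (abs_mul _ _).le) (ae_of fun z hz => ?_) ?_ (ae_of fun z hz => ?_)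
  · obtain ⟨j, hj⟩ := sep z.1
    exact (h.abs.near hz hj).1.mul_right _
  · simpa only [tsum_mul_right] using hg'.int h.abs.sum_int
  · obtain ⟨j, hj⟩ := sep z.1
    exact (h.near hz hj).1.hasSum.mul_right _

lemma w_bd {z : ℝ × ℝ} (hz : z ∈ disc (1 / 2)) (k : ℕ) : 0 ≤ w k z ∧ w k z ≤ 3 :=
  have := F_bd (T_nonneg (by linarith [L_ge k] : 0 ≤ L k) (rho_le hz k))
  ⟨this.1, this.2.1⟩

lemma θ_nonneg (k : ℕ) (z : ℝ × ℝ) : 0 ≤ θ k z := Θ_nonneg _ _ _

lemma nice_w : Nice w := ⟨w_meas, fun _ hz _ h => (far' hz h).1, fun z hz k => by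
  rw [abs_of_nonneg (w_bd hz k).1]; linarith [(w_bd hz k).2, θ_nonneg k z]⟩

lemma nice_w1 : Nice w1 := ⟨w1_meas, fun _ hz _ h => (far' hz h).2.1, fun z _ k =>
  (abs_W1 _ _ _).trans (by linarith [θ_nonneg k z, show Θ (L k) (z.1 - p k) z.2 = θ k z from rfl])⟩

lemma nice_w2 : Nice w2 := ⟨w2_meas, fun _ hz _ h => (far' hz h).2.2.1, fun z _ k =>
  (abs_W1 _ _ _).trans (by linarith [θ_nonneg k z, show Θ (L k) z.2 (z.1 - p k) = θ k z from Θ_comm _ _ _])⟩

lemma nice_lp : Nice lp := ⟨lp_meas, fun _ hz k h => by rw [(far' hz h).2.2.2.2, abs_zero]; exact (p_pos k).le,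
  fun z _ k => (abs_Lap _ _ _).trans (by linarith [show Θ (L k) (z.1 - p k) z.2 = θ k z from rfl])⟩

variable {h : ℝ × ℝ → ℝ}

lemma Test.cc (t : Test (1 / 2) h) : Cc h ∧ Cc (d1 h) ∧ Cc (d2 h) := by
  have c := t.1.continuous_fderiv (by simp)
  have z0 : ∀ z, z ∉ disc (1 / 2) → fderiv ℝ h z = 0 := fun z hz =>
    fderiv_of_notMem_tsupport (𝕜 := ℝ) fun e => hz (t.2.2 e)
  exact ⟨⟨t.1.continuous, t.2.1, fun z hz => image_eq_zero_of_notMem_tsupport fun e => hz (t.2.2 e)⟩,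
    ⟨c.clm_apply continuous_const, t.2.1.fderiv_apply (𝕜 := ℝ) _, fun z hz => by simp [d1, z0 z hz]⟩,
    ⟨c.clm_apply continuous_const, t.2.1.fderiv_apply (𝕜 := ℝ) _, fun z hz => by simp [d2, z0 z hz]⟩⟩

lemma Test.der1 (t : Test (1 / 2) h) (y x : ℝ) : HasDerivAt (fun x => h (x, y)) (d1 h (x, y)) x :=
  (t.1.differentiable (by simp) (x, y)).hasFDerivAt.comp_hasDerivAt x ((hasDerivAt_id' x).prodMk (hasDerivAt_const x y))

lemma Test.der2 (t : Test (1 / 2) h) (x y : ℝ) : HasDerivAt (fun y => h (x, y)) (d2 h (x, y)) y :=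
  (t.1.differentiable (by simp) (x, y)).hasFDerivAt.comp_hasDerivAt y ((hasDerivAt_const y x).prodMk (hasDerivAt_id' y))

lemma bump (t : Test (1 / 2) h) (k : ℕ) : (∫ z, w k z * d1 h z = -∫ z, w1 k z * h z) ∧
    (∫ z, w k z * d2 h z = -∫ z, w2 k z * h z) ∧
    (∫ z, w1 k z * d1 h z) + (∫ z, w2 k z * d2 h z) + ∫ z, lp k z * h z = 0 := by
  obtain ⟨c0, c1, c2⟩ := t.cc
  have hL : 0 < L k := by linarith [L_ge k]
  have i1 : Integrable (fun z : ℝ × ℝ => W2 (L k) (z.1 - p k) z.2) μ :=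
    bd_int (by unfold W2 T; fun_prop) 0 (8 + 6 * L k) fun z hz => (abs_W2 hL _ _).trans (by
      rw [zero_add]; exact mul_le_mul_of_nonneg_left (θ_le hz k) (by linarith))
  have i2 : Integrable (fun z : ℝ × ℝ => W2 (L k) z.2 (z.1 - p k)) μ :=
    bd_int (by unfold W2 T; fun_prop) 0 (8 + 6 * L k) fun z hz => (abs_W2 hL _ _).trans (by
      rw [zero_add, Θ_comm]; exact mul_le_mul_of_nonneg_left (θ_le hz k) (by linarith))
  refine ⟨ibp1 (c1.int' (nice_w.int k)) (c0.int' (nice_w1.int k)) (c0.int' (nice_w.int k))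
    (fun y hy x => (dW (L k) (x - p k) hy).comp_sub_const x (p k)) t.der1,
    ibp2 (p k) (c2.int' (nice_w.int k)) (c0.int' (nice_w2.int k)) (c0.int' (nice_w.int k))
    (fun x hx y => by simpa only [w, w2, W_comm _ (x - p k)] using dW (L k) y (sub_ne_zero.2 hx)) t.der2, ?_⟩
  rw [ibp1 (c1.int' (nice_w1.int k)) (c0.int' i1) (c0.int' (nice_w1.int k))
    (fun y hy x => (dW1 hL.ne' (x - p k) hy).comp_sub_const x (p k)) t.der1,
    ibp2 (p k) (c2.int' (nice_w2.int k)) (c0.int' i2) (c0.int' (nice_w2.int k))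
    (fun x hx y => dW1 hL.ne' y (sub_ne_zero.2 hx)) t.der2, ← neg_add, ← integral_add (c0.int' i1) (c0.int' i2)]
  simp only [← add_mul, W2_add, lp, neg_add_cancel]

def u (z : ℝ × ℝ) : ℝ := ∑' k, w k z
def u1 (z : ℝ × ℝ) : ℝ := ∑' k, w1 k z
def u2 (z : ℝ × ℝ) : ℝ := ∑' k, w2 k z
def f (z : ℝ × ℝ) : ℝ := ∑' k, lp k z

lemma key {z : ℝ × ℝ} (hz : z ∈ disc (1 / 2)) : |u z| ≤ 4 ∧ u1 z ^ 2 ≤ 1 + 8 * Λ z ∧ u2 z ^ 2 ≤ 1 + 8 * Λ z ∧
    (f z ≠ 0 → 0 < u1 z ^ 2 + u2 z ^ 2 ∧ f z ^ 2 ≤ 64 * Λ z * (u1 z ^ 2 + u2 z ^ 2)) := by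
  obtain ⟨j, hj⟩ := sep z.1
  have e0 : |u z - w j z| ≤ 1 / 2 := (nice_w.near hz hj).2
  have e1 : |u1 z - w1 j z| ≤ 1 / 2 := (nice_w1.near hz hj).2
  have e2 : |u2 z - w2 j z| ≤ 1 / 2 := (nice_w2.near hz hj).2
  have e3 : f z = lp j z := tsum_eq_single j fun k hk => (far' hz (hj k hk)).2.2.2.2
  have e4 := θ_le hz j
  have a1 : w1 j z ^ 2 ≤ 4 * θ j z := W1_sq_le _ _ _
  have a2 : w2 j z ^ 2 ≤ 4 * θ j z := (W1_sq_le _ _ _).trans_eq (by rw [Θ_comm, θ])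
  have sq : ∀ {x y : ℝ}, |x - y| ≤ 1 / 2 → x ^ 2 ≤ 1 + 2 * y ^ 2 := fun {x y} h => by
    nlinarith [sq_abs (x - y), abs_nonneg (x - y), sq_nonneg (x - 2 * y)]
  refine ⟨?_, by linarith [sq e1], by linarith [sq e2], fun hf => ?_⟩
  · rw [abs_le] at e0 ⊢
    constructor <;> linarith [e0.1, e0.2, (w_bd hz j).1, (w_bd hz j).2]
  · have := drift (L_ge j) e1 e2 (e3 ▸ hf)
    simp only [show W1 (L j) (z.1 - p j) z.2 = w1 j z from rfl, show W1 (L j) z.2 (z.1 - p j) = w2 j z from rfl,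
      add_sub_cancel] at this
    refine ⟨this.1, e3 ▸ this.2.trans (mul_le_mul_of_nonneg_right ?_ this.1.le)⟩
    exact mul_le_mul_of_nonneg_left e4 (by norm_num)

lemma sq_mem {g : ℝ × ℝ → ℝ} (hg : Measurable g) (A B : ℝ) (h : ∀ z ∈ disc (1 / 2), g z ^ 2 ≤ A + B * Λ z) :
    MemLp g 2 μ :=
  (memLp_two_iff_integrable_sq hg.aestronglyMeasurable).2
    (bd_int (hg.pow_const 2) A B fun z hz => by rw [abs_of_nonneg (sq_nonneg _)]; exact h z hz)

lemma b_bd {z : ℝ × ℝ} (hz : z ∈ disc (1 / 2)) {x : ℝ} (hx : x ^ 2 ≤ u1 z ^ 2 + u2 z ^ 2) :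
    (f z * x / (u1 z ^ 2 + u2 z ^ 2)) ^ 2 ≤ 0 + 64 * Λ z := by
  have h0 : 0 ≤ Λ z := (θ_nonneg 0 z).trans (θ_le hz 0)
  by_cases hf : f z = 0
  · rw [hf]; simp; positivity
  · obtain ⟨a, b⟩ := (key hz).2.2.2 hf
    rw [div_pow, div_le_iff₀ (by positivity), mul_pow]
    nlinarith [mul_le_mul b hx (sq_nonneg _) (by positivity)]

lemma not_cont : ¬∃ v, ContinuousOn v (disc (1 / 2)) ∧ u =ᵐ[μ] v := by
  rintro ⟨v, hv, e⟩
  have e' : volume ({z | u z ≠ v z} ∩ disc (1 / 2)) = 0 := by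
    rw [← Measure.restrict_apply' (disc_open _).measurableSet]
    exact e
  have key : ∀ U : Set (ℝ × ℝ), IsOpen U → U ⊆ disc (1 / 2) → (∀ z ∈ U, z.2 ≠ 0 → u z ≠ v z) → U = ∅ := by
    intro U hU h1 h2
    rw [← hU.measure_eq_zero_iff volume]
    refine measure_mono_null (t := ({z | u z ≠ v z} ∩ disc (1 / 2)) ∪ univ ×ˢ {0}) (fun z hz => ?_)
      (measure_union_null e' (by rw [Measure.volume_eq_prod, Measure.prod_prod]; simp))
    by_cases h : z.2 = 0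
    · exact Or.inr ⟨trivial, h⟩
    · exact Or.inl ⟨h2 z hz h, h1 hz⟩
  have pm : ∀ k, (p k, 0) ∈ disc (1 / 2) ∧ (-p k, 0) ∈ disc (1 / 2) := fun k => by
    simp only [disc, mem_ofPred_eq]
    constructor <;> nlinarith [p_pos k, p_le k]
  have hi : ∀ k, 1 ≤ v (p k, 0) := fun k => not_lt.1 fun h => by
    have := key ((disc (1 / 2) ∩ v ⁻¹' Iio 1) ∩ {z | (z.1 - p k) ^ 2 + z.2 ^ 2 < exp (-L k)})
      ((hv.isOpen_inter_preimage (disc_open _) isOpen_Iio).inter (isOpen_lt (by fun_prop) continuous_const))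
      (fun z hz => hz.1.1) fun z hz h0 e => by
        obtain ⟨j, hj⟩ := sep z.1
        have a1 : w k z ≤ u z := (nice_w.near hz.1.1 hj).1.le_tsum k fun i _ => (w_bd hz.1.1 i).1
        have a2 : 1 ≤ w k z := F_ge (by
          have := log_lt_log (by positivity) (show (z.1 - p k) ^ 2 + z.2 ^ 2 < exp (-L k) from hz.2)
          rw [log_exp] at this
          rw [T, lt_div_iff₀ (by linarith [L_ge k])]
          linarith)
        have a3 : v z < 1 := hz.1.2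
        linarith
    exact (this ▸ (show (p k, (0 : ℝ)) ∈ _ from ⟨⟨(pm k).1, h⟩, by simp [exp_pos]⟩) : (p k, (0 : ℝ)) ∈ (∅ : Set _))
  have lo : ∀ k, v (-p k, 0) ≤ 1 / 2 := fun k => not_lt.1 fun h => by
    have := key ((disc (1 / 2) ∩ v ⁻¹' Ioi (1 / 2)) ∩ {z | z.1 < 0})
      ((hv.isOpen_inter_preimage (disc_open _) isOpen_Ioi).inter (isOpen_lt (by fun_prop) continuous_const))
      (fun z hz => hz.1.1) fun z hz _ e => by
        have a1 : ‖u z‖ ≤ 1 / 2 := tsum_of_norm_bounded p_sum fun i => (far' hz.1.1 (by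
          have : z.1 < 0 := hz.2
          have hp : (0 : ℝ) < (1 / 2) ^ i := by positivity
          rw [abs_of_neg (by linarith [p_pos i])]
          unfold p d
          linarith)).1
        have a3 : 1 / 2 < v z := hz.1.2
        linarith [le_abs_self (u z), show ‖u z‖ = |u z| from rfl]
    exact (this ▸ (show (-p k, (0 : ℝ)) ∈ _ from ⟨⟨(pm k).2, h⟩, by simp [p_pos]⟩) : (-p k, (0 : ℝ)) ∈ (∅ : Set _))
  have c0 : ContinuousAt v (0, 0) := hv.continuousAt ((disc_open _).mem_nhds (by simp [disc]))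
  have t1 := p_sum.summable.tendsto_atTop_zero
  have t2 : Tendsto (fun k => -p k) atTop (𝓝 0) := by simpa using t1.neg
  linarith [ge_of_tendsto' (c0.tendsto.comp (t1.prodMk_nhds tendsto_const_nhds)) hi,
    le_of_tendsto' (c0.tendsto.comp (t2.prodMk_nhds tendsto_const_nhds)) lo]

end

theorem result : ∃ (R : ℝ) (b₁ b₂ u u₁ u₂ : ℝ × ℝ → ℝ), 0 < R ∧
    MemLp b₁ 2 (volume.restrict (disc R)) ∧ MemLp b₂ 2 (volume.restrict (disc R)) ∧
    MemLp u 2 (volume.restrict (disc R)) ∧ MemLp u₁ 2 (volume.restrict (disc R)) ∧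
    MemLp u₂ 2 (volume.restrict (disc R)) ∧ MemLp u ⊤ (volume.restrict (disc R)) ∧
    (∀ h, Test R h → (∫ z in disc R, u z * d1 h z = -∫ z in disc R, u₁ z * h z) ∧
      (∫ z in disc R, u z * d2 h z = -∫ z in disc R, u₂ z * h z)) ∧
    (∀ h, Test R h → ∫ z in disc R, (u₁ z * (d1 h z + b₁ z * h z) + u₂ z * (d2 h z + b₂ z * h z)) = 0) ∧
    ¬∃ v, ContinuousOn v (disc R) ∧ u =ᵐ[volume.restrict (disc R)] v := by
  have m0 : Measurable u := Measurable.tsum w_meas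
  have m1 : Measurable u1 := Measurable.tsum w1_meas
  have m2 : Measurable u2 := Measurable.tsum w2_meas
  have m3 : Measurable f := Measurable.tsum lp_meas
  have top : MemLp u ⊤ μ := memLp_top_of_bound m0.aestronglyMeasurable 4 (ae_of fun z hz => (key hz).1)
  refine ⟨1 / 2, fun z => f z * u1 z / (u1 z ^ 2 + u2 z ^ 2), fun z => f z * u2 z / (u1 z ^ 2 + u2 z ^ 2), u, u1, u2,
    by norm_num, sq_mem (by fun_prop) 0 64 fun z hz => b_bd hz (by nlinarith),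
    sq_mem (by fun_prop) 0 64 fun z hz => b_bd hz (by nlinarith), top.mono_exponent le_top,
    sq_mem m1 1 8 fun z hz => (key hz).2.1, sq_mem m2 1 8 fun z hz => (key hz).2.2.1, top, fun h t => ?_,
    fun h t => ?_, not_cont⟩
  · obtain ⟨c0, c1, c2⟩ := t.cc
    exact ⟨(nice_w.hasSum c1).unique (by simp only [(bump t _).1]; exact (nice_w1.hasSum c0).neg),
      (nice_w.hasSum c2).unique (by simp only [(bump t _).2.1]; exact (nice_w2.hasSum c0).neg)⟩
  · obtain ⟨c0, c1, c2⟩ := t.cc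
    have e := ((nice_w1.hasSum c1).add (nice_w2.hasSum c2)).add (nice_lp.hasSum c0)
    simp only [(bump t _).2.2] at e
    rw [hasSum_zero.unique e, ← integral_add (c1.int nice_w1.sum_int) (c2.int nice_w2.sum_int),
      ← integral_add (f := fun z => (∑' k, w1 k z) * d1 h z + (∑' k, w2 k z) * d2 h z)
        ((c1.int nice_w1.sum_int).add (c2.int nice_w2.sum_int)) (c0.int nice_lp.sum_int)]
    refine integral_congr_ae (ae_of fun z hz => ?_)
    change _ = u1 z * d1 h z + u2 z * d2 h z + f z * h z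
    by_cases hf : f z = 0
    · simp [hf]
    · have := ((key hz).2.2.2 hf).1.ne'
      field_simp
      ring

end Pool.Agent.Results.MP_89b2fa_an.Counter
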